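import Pool.Agent.Q32.Idx.Asm
import Pool.Agent.Results.MP_6bc78b_nt.SimplePlusExcess

set_option autoImplicit false

/-!
# MP_6bc78b_nt: the indices of the simple zeros of Hardy's function, and their directions

Count the nontrivial zeros of zeta in the upper half-plane with multiplicity, on and off the critical line; the
index of a real zero `t > 0` of Hardy's function `Z` is the number `N(0, t)` of the zeros with ordinate in `(0, t]`.
Unconditionally, for all large `T`, and uniformly for all sets `A` of natural numbers without two consecutive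
elements, at least `|A ∩ (0, N(T)]| - 0.1637 N(T)` simple zeros of `Z` in `(0, T]` have their index in `A`.  So every
residue class modulo `q ≥ 2` contains the indices of at least `(1/q - 0.1637) N(T) - 1` simple zeros, which is a
positive proportion for `q ≤ 6`.  The direction in which `Z` crosses the axis at a simple zero is given by the
parity of the index; therefore `Z' > 0` at `0.3363 N(T) - 1` simple zeros at least, and `Z' < 0` at as many.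
All this holds in short intervals with `(c(h) - 1) / 2 + ε` for `0.1637`.
-/

namespace Pool.Agent.Results.MP_6bc78b_nt.IndexClasses

open Pool.Agent.Q32.Idx

theorem spe_Z : SimplePlusExcess.Z = fun t : ℝ => ((Z t : ℝ) : ℂ) := by
  funext t
  exact (Z_real t).symm

theorem spe_simple (T₁ T₂ : ℝ) : SimplePlusExcess.simpleZeros T₁ T₂ = simpleZeros T₁ T₂ := by
  ext t
  have h0 : SimplePlusExcess.Z t = 0 ↔ Z t = 0 := by
    rw [spe_Z]
    exact Complex.ofReal_eq_zero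
  have h1 : Z t = 0 → deriv SimplePlusExcess.Z t = ((deriv Z t : ℝ) : ℂ) := by
    intro hz
    have hD := (Z_hasDerivAt t ((Z_zero_iff t).1 hz)).1
    rw [← hD.deriv] at hD
    rw [spe_Z]
    exact hD.ofReal_comp.deriv
  constructor
  · rintro ⟨a1, a2, a3, a4⟩
    refine ⟨a1, a2, h0.1 a3, fun h => a4 ?_⟩
    rw [h1 (h0.1 a3), h, Complex.ofReal_zero]
  · rintro ⟨a1, a2, a3, a4⟩
    refine ⟨a1, a2, h0.2 a3, fun h => a4 ?_⟩
    rw [h1 a3] at h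
    exact_mod_cast h

theorem spe_N (T₁ T₂ : ℝ) : SimplePlusExcess.N T₁ T₂ = N T₁ T₂ := rfl

theorem spe_ex (T₁ T₂ : ℝ) : SimplePlusExcess.excess T₁ T₂ = ∑ s ∈ Zf T₁ T₂, exw s := by
  classical
  have h : SimplePlusExcess.excess T₁ T₂ = ∑ᶠ s ∈ zeros T₁ T₂, exw s := by
    unfold SimplePlusExcess.excess
    refine finsum_congr fun s => finsum_congr fun _ => ?_
    unfold exw
    split_ifs <;> rfl
  rw [h]
  exact finsum_mem_eq_finite_toFinset_sum _ (zeros_finite T₁ T₂)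

/-- the number of the elements of `A` in `(m, n]` -/
noncomputable def count (A : Set ℕ) (m n : ℕ) : ℕ := (A ∩ Set.Ioc m n).ncard

theorem count_eq (A : Set ℕ) (m k : ℕ) : count A m (m + k) = cnt A m k := by
  classical
  unfold count cnt
  rw [← Set.ncard_coe_finset]
  congr 1
  ext x
  simp [and_comm]

theorem count_N (A : Set ℕ) {T₁ T₂ : ℝ} (h1 : 0 ≤ T₁) (h2 : T₁ ≤ T₂) :
    count A (N 0 T₁) (N 0 T₂) = cnt A (N 0 T₁) (N T₁ T₂) := by
  rw [N_split h1 h2, count_eq]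

theorem N_zero_zero : N 0 0 = 0 := by
  have : Zf 0 0 = ∅ := by
    rw [Finset.eq_empty_iff_forall_notMem]
    intro s hs
    rw [mem_Zf] at hs
    linarith [hs.2.2.2.1, hs.2.2.2.2]
  rw [N_eq, this, Finset.sum_empty]

theorem main_zero : ∃ T₀ : ℝ, ∀ T : ℝ, T₀ ≤ T → ∀ A : Set ℕ, (∀ n ∈ A, n + 1 ∉ A) →
    (count A 0 (N 0 T) : ℝ) - 0.1637 * N 0 T ≤ ((simpleZerosIn A 0 T).ncard : ℝ) := by
  obtain ⟨T₀, hT₀⟩ := SimplePlusExcess.result.1
  refine ⟨max T₀ 0, fun T hT A hA => ?_⟩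
  have h0 : 0 ≤ T := (le_max_right _ _).trans hT
  have h1 := (hT₀ T ((le_max_left _ _).trans hT)).1
  rw [spe_N, spe_ex, spe_simple] at h1
  have h2 := main_ineq (A := A) hA le_rfl h0
  have h3 := count_N A le_rfl h0
  rw [N_zero_zero] at h2 h3
  rw [h3]
  have h4 : (2 : ℝ) * cnt A 0 (N 0 T) + ((simpleZeros 0 T).ncard : ℝ) ≤
      2 * ((simpleZerosIn A 0 T).ncard : ℝ) + N 0 T + ((∑ s ∈ Zf 0 T, exw s : ℕ) : ℝ) := by
    exact_mod_cast h2
  have h5 : (0 : ℝ) ≤ ((∑ s ∈ Zf 0 T, exw s : ℕ) : ℝ) := Nat.cast_nonneg _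
  linarith

theorem main_short (h ε : ℝ) (h0 : 0 < h) (h1 : h ≤ 1) (hε : 0 < ε) :
    ∃ T₀ : ℝ, ∀ T : ℝ, T₀ ≤ T → ∀ H : ℝ, T ^ h ≤ H → H ≤ T → ∀ A : Set ℕ, (∀ n ∈ A, n + 1 ∉ A) →
      (count A (N 0 T) (N 0 (T + H)) : ℝ) - ((c h - 1) / 2 + ε) * N T (T + H) ≤
        ((simpleZerosIn A T (T + H)).ncard : ℝ) := by
  obtain ⟨T₀, hT₀⟩ := SimplePlusExcess.result.2.1 h (2 * ε) h0 h1 (by linarith)
  refine ⟨max T₀ 0, fun T hT H hH1 hH2 A hA => ?_⟩
  have hT0 : 0 ≤ T := (le_max_right _ _).trans hT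
  have hH0 : 0 ≤ H := (Real.rpow_nonneg hT0 _).trans hH1
  have h1 := hT₀ T ((le_max_left _ _).trans hT) H hH1 hH2
  rw [spe_N, spe_ex, spe_simple] at h1
  have hc : SimplePlusExcess.c h = c h := rfl
  rw [hc] at h1
  have h2 := main_ineq (A := A) hA hT0 (by linarith : T ≤ T + H)
  rw [count_N A hT0 (by linarith : T ≤ T + H)]
  have h4 : (2 : ℝ) * cnt A (N 0 T) (N T (T + H)) + ((simpleZeros T (T + H)).ncard : ℝ) ≤
      2 * ((simpleZerosIn A T (T + H)).ncard : ℝ) + N T (T + H) +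
        ((∑ s ∈ Zf T (T + H), exw s : ℕ) : ℝ) := by
    exact_mod_cast h2
  have h5 : (0 : ℝ) ≤ ((∑ s ∈ Zf T (T + H), exw s : ℕ) : ℝ) := Nat.cast_nonneg _
  linarith

theorem residue : ∃ T₀ : ℝ, ∀ T : ℝ, T₀ ≤ T → ∀ q a : ℕ, 2 ≤ q →
    (1 / (q : ℝ) - 0.1637) * N 0 T - 1 ≤
      (({t : ℝ | t ∈ simpleZeros 0 T ∧ N 0 t ≡ a [MOD q]}.ncard : ℕ) : ℝ) := by
  obtain ⟨T₀, hT₀⟩ := main_zero
  refine ⟨max T₀ 0, fun T hT q a hq => ?_⟩
  have hT0 : 0 ≤ T := (le_max_right _ _).trans hT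
  have h1 := hT₀ T ((le_max_left _ _).trans hT) {n : ℕ | n ≡ a [MOD q]} (noCons_mod q a hq)
  have h2 := cnt_mod q a 0 (N 0 T) hq
  have h3 := count_N {n : ℕ | n ≡ a [MOD q]} le_rfl hT0
  rw [N_zero_zero] at h3
  rw [h3] at h1
  have e : simpleZerosIn {n : ℕ | n ≡ a [MOD q]} 0 T =
      {t : ℝ | t ∈ simpleZeros 0 T ∧ N 0 t ≡ a [MOD q]} := rfl
  rw [e] at h1
  have e2 : (N 0 T : ℝ) / q = 1 / (q : ℝ) * N 0 T := by ring
  rw [e2] at h2
  linarith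

theorem result :
    -- Hardy's function is real
    (∀ t : ℝ, ((Z t : ℝ) : ℂ) = phase t * riemannZeta (1 / 2 + Complex.I * t)) ∧
    -- the direction of a crossing and the parity of the index
    (∀ t : ℝ, 0 < t → Z t = 0 → deriv Z t ≠ 0 → (0 < deriv Z t ↔ Odd (N 0 t))) ∧
    -- simple zeros whose index is in a set without two consecutive elements
    (∃ T₀ : ℝ, ∀ T : ℝ, T₀ ≤ T → ∀ A : Set ℕ, (∀ n ∈ A, n + 1 ∉ A) →
      (count A 0 (N 0 T) : ℝ) - 0.1637 * N 0 T ≤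
        (({t : ℝ | t ∈ simpleZeros 0 T ∧ N 0 t ∈ A}.ncard : ℕ) : ℝ)) ∧
    -- the same in short intervals
    (∀ h ε : ℝ, 0 < h → h ≤ 1 → 0 < ε →
      ∃ T₀ : ℝ, ∀ T : ℝ, T₀ ≤ T → ∀ H : ℝ, T ^ h ≤ H → H ≤ T → ∀ A : Set ℕ, (∀ n ∈ A, n + 1 ∉ A) →
        (count A (N 0 T) (N 0 (T + H)) : ℝ) - ((c h - 1) / 2 + ε) * N T (T + H) ≤
          (({t : ℝ | t ∈ simpleZeros T (T + H) ∧ N 0 t ∈ A}.ncard : ℕ) : ℝ)) ∧
    -- residue classes of the index
    (∃ T₀ : ℝ, ∀ T : ℝ, T₀ ≤ T → ∀ q a : ℕ, 2 ≤ q →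
      (1 / (q : ℝ) - 0.1637) * N 0 T - 1 ≤
        (({t : ℝ | t ∈ simpleZeros 0 T ∧ N 0 t ≡ a [MOD q]}.ncard : ℕ) : ℝ)) ∧
    -- simple zeros with `Z' > 0` and with `Z' < 0`
    (∃ T₀ : ℝ, ∀ T : ℝ, T₀ ≤ T →
      0.3363 * (N 0 T : ℝ) - 1 ≤ (({t : ℝ | 0 < t ∧ t ≤ T ∧ Z t = 0 ∧ 0 < deriv Z t}.ncard : ℕ) : ℝ) ∧
      0.3363 * (N 0 T : ℝ) - 1 ≤ (({t : ℝ | 0 < t ∧ t ≤ T ∧ Z t = 0 ∧ deriv Z t < 0}.ncard : ℕ) : ℝ)) := by
  refine ⟨Z_real, fun t ht hz hd => deriv_pos_iff ht hz hd, main_zero, main_short, residue, ?_⟩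
  obtain ⟨T₀, hT₀⟩ := residue
  refine ⟨T₀, fun T hT => ⟨?_, ?_⟩⟩
  · have h1 := hT₀ T hT 2 1 le_rfl
    have e : {t : ℝ | t ∈ simpleZeros 0 T ∧ N 0 t ≡ 1 [MOD 2]} =
        {t : ℝ | 0 < t ∧ t ≤ T ∧ Z t = 0 ∧ 0 < deriv Z t} := by
      ext t
      constructor
      · rintro ⟨⟨a1, a2, a3, a4⟩, a5⟩
        refine ⟨a1, a2, a3, (deriv_pos_iff a1 a3 a4).2 ?_⟩
        rw [Nat.odd_iff]
        exact a5
      · rintro ⟨a1, a2, a3, a4⟩
        refine ⟨⟨a1, a2, a3, a4.ne'⟩, ?_⟩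
        have h2 := (deriv_pos_iff a1 a3 a4.ne').1 a4
        rw [Nat.odd_iff] at h2
        exact h2
    rw [e] at h1
    refine le_trans (le_of_eq ?_) h1
    push_cast
    ring
  · have h1 := hT₀ T hT 2 0 le_rfl
    have e : {t : ℝ | t ∈ simpleZeros 0 T ∧ N 0 t ≡ 0 [MOD 2]} =
        {t : ℝ | 0 < t ∧ t ≤ T ∧ Z t = 0 ∧ deriv Z t < 0} := by
      ext t
      constructor
      · rintro ⟨⟨a1, a2, a3, a4⟩, a5⟩
        refine ⟨a1, a2, a3, ?_⟩
        rcases lt_or_gt_of_ne a4 with h | h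
        · exact h
        · exfalso
          have h2 := (deriv_pos_iff a1 a3 a4).1 h
          rw [Nat.odd_iff] at h2
          have h3 : N 0 t % 2 = 0 := a5
          omega
      · rintro ⟨a1, a2, a3, a4⟩
        refine ⟨⟨a1, a2, a3, a4.ne⟩, ?_⟩
        have h2 : ¬ Odd (N 0 t) := fun h => absurd ((deriv_pos_iff a1 a3 a4.ne).2 h) (not_lt.2 a4.le)
        rw [Nat.not_odd_iff] at h2
        exact h2
    rw [e] at h1
    refine le_trans (le_of_eq ?_) h1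
    push_cast
    ring

end Pool.Agent.Results.MP_6bc78b_nt.IndexClasses
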