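import Pool.Agent.Q85.Rig.Sum2

/-!
# Simple zeros of Hardy's function and the pairs of zeros at long distances

Unconditional.  The zeros are the nontrivial zeros of zeta, on and off the critical line, counted
with multiplicity; `X (T) = (T / 2π) log T`, `D (T)` is the number of ordered pairs of zeros with
equal ordinates in `(0, T]`, divided by `X (T)`, and `G (T, a)` is the number of ordered pairs of
zeros with ordinates `γ, γ'` in `(0, T]` and `0 < γ - γ' ≤ 2πa / log T`, divided by `X (T)`.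

* **Sum rule.**  There is an absolute constant `C` such that for all `0 ≤ A < B` and all large `T`
  `|(B - A) D (T) - 2 ∫_A^B (a - G (T, a)) da - π⁻² log ((1 + B) / (1 + A))| ≤ C`.
  So the pairs of zeros at long distances (in an arbitrary long block `[A, B]`) determine the pairs
  of zeros with equal ordinates.
* **Simple zeros of `Z`.**  Let `S (T)` be the number of the simple zeros of Hardy's function in
  `(0, T]`, and `N (T)` the number of all zeros.  For all `0 ≤ A < B`, `ε > 0` and all large `T`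
  `S (T) ≥ (2 - (B - A)⁻¹ (2 ∫_A^B (a - G (T, a)) da + π⁻² log ((1 + B) / (1 + A)) + C) - ε) N (T)`.
* **Criterion.**  `D (T) → 1` if and only if there are arbitrarily long blocks `[A, B]` with
  `log ((1 + B) / (1 + A)) / (B - A)` arbitrarily small in which the mean of `a - G (T, a)` is
  eventually at most `1/2 + η`, for every `η > 0`; in this case almost all zeros of zeta are simple
  zeros of `Z` (`S (T) ~ N (T)`).

The mean value `1/2` is the one predicted by the Gaussian unitary ensemble, where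
`G (a) = a - 1/2 + O (1 / a)`; only the average of `G` over distant `a` with an error `o (1)` is
needed, nothing about the pairs at short distances.

Proof: the mean square of `N (t + 2πL / log T) - N (t)` over `0 ≤ t ≤ T` is `L D (T) +
2 ∫_0^L G (T, a) da + o (1)` on the one hand, and `L² + π⁻² log (1 + L) + O (1)` on the other hand,
by the theorem of Selberg and Fujii (starting library, `TH850.UV.nv2`).
-/

set_option autoImplicit false

open Filter Topology Complex

namespace Pool.Agent.Results.MP_6bc78b_nt.LongRangePairs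

/-- the phase `exp (i ϑ(t))`, with `ϑ(t) = arg Γ(1/4 + i t / 2) - (t / 2) log π` -/
noncomputable def phase (t : ℝ) : ℂ :=
  Gamma (1 / 4 + I * t / 2) / ‖Gamma (1 / 4 + I * t / 2)‖ * cexp (-(I * (t / 2) * Real.log Real.pi))

/-- Hardy's function `Z(t) = exp (i ϑ(t)) ζ(1/2 + i t)` -/
noncomputable def Z (t : ℝ) : ℂ := phase t * riemannZeta (1 / 2 + I * t)

/-- the simple real zeros of `Z` in `(0, T]` -/
def simpleZeros (T : ℝ) : Set ℝ := {t : ℝ | 0 < t ∧ t ≤ T ∧ Z t = 0 ∧ deriv Z t ≠ 0}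

/-- the nontrivial zeros of `ζ` with ordinate in `(0, T]` -/
def Zeros (T : ℝ) : Set ℂ := {s : ℂ | riemannZeta s = 0 ∧ 0 < s.re ∧ s.re < 1 ∧ 0 < s.im ∧ s.im ≤ T}

/-- the multiplicity of `s` as a zero of `ζ` -/
noncomputable def mult (s : ℂ) : ℕ := analyticOrderNatAt riemannZeta s

/-- the number of nontrivial zeros with ordinate in `(0, T]`, with multiplicity -/
noncomputable def N (T : ℝ) : ℕ := ∑ᶠ s ∈ Zeros T, mult s

/-- the normalisation `(T / 2π) log T` -/
noncomputable def X (T : ℝ) : ℝ := T / (2 * Real.pi) * Real.log T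

/-- the number of the ordered pairs of zeros with equal ordinates in `(0, T]`, divided by `X T` -/
noncomputable def D (T : ℝ) : ℝ :=
  ((∑ᶠ p ∈ {p : ℂ × ℂ | p.1 ∈ Zeros T ∧ p.2 ∈ Zeros T ∧ p.1.im = p.2.im},
    mult p.1 * mult p.2 : ℕ) : ℝ) / X T

/-- the number of the ordered pairs of zeros with ordinates in `(0, T]` and difference in
`(0, 2πa / log T]`, divided by `X T` -/
noncomputable def G (T a : ℝ) : ℝ :=
  ((∑ᶠ p ∈ {p : ℂ × ℂ | p.1 ∈ Zeros T ∧ p.2 ∈ Zeros T ∧ 0 < p.1.im - p.2.im ∧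
    p.1.im - p.2.im ≤ 2 * Real.pi * a / Real.log T}, mult p.1 * mult p.2 : ℕ) : ℝ) / X T

/-- In arbitrarily long blocks `[A, B]`, with `log ((1 + B) / (1 + A)) / (B - A)` arbitrarily small,
the mean of `a - G (T, a)` is eventually at most `1/2 + η`. -/
def LongRange (l : Filter ℝ) : Prop := ∀ η M : ℝ, 0 < η → ∃ A B : ℝ, 0 ≤ A ∧ A < B ∧ A + M ≤ B ∧
  Real.log ((1 + B) / (1 + A)) ≤ η * (B - A) ∧
  ∀ᶠ T in l, 1 / (B - A) * ∫ a in A..B, (a - G T a) ≤ 1 / 2 + η

open Pool.Agent.Y749.Rig Pool.Agent.Q85.Rig Pool.Agent.Y749.AH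

lemma gamma_ne (t : ℝ) : Gamma (1 / 4 + I * t / 2) ≠ 0 := by
  apply Gamma_ne_zero_of_re_pos
  simp

lemma gamma_cont : Continuous fun t : ℝ => Gamma (1 / 4 + I * t / 2) := by
  rw [continuous_iff_continuousAt]
  intro t
  have h1 : ContinuousAt Gamma (1 / 4 + I * t / 2) := by
    refine (differentiableAt_Gamma _ fun m hm => ?_).continuousAt
    have := congrArg Complex.re hm
    simp at this
    have hm0 : (0 : ℝ) ≤ m := Nat.cast_nonneg m
    linarith
  exact ContinuousAt.comp (f := fun t : ℝ => (1 / 4 + I * t / 2 : ℂ)) h1 (by fun_prop)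

lemma phase_cont : Continuous phase := by
  unfold phase
  refine Continuous.mul (gamma_cont.div ?_ ?_) (by fun_prop)
  · exact Complex.continuous_ofReal.comp gamma_cont.norm
  · intro t
    rw [Complex.ofReal_ne_zero]
    exact norm_ne_zero_iff.mpr (gamma_ne t)

lemma phase_ne (t : ℝ) : phase t ≠ 0 := by
  unfold phase
  refine mul_ne_zero (div_ne_zero (gamma_ne t) ?_) (Complex.exp_ne_zero _)
  rw [Complex.ofReal_ne_zero]
  exact norm_ne_zero_iff.mpr (gamma_ne t)

lemma Z_zero_iff (t : ℝ) : Z t = 0 ↔ riemannZeta (1 / 2 + I * t) = 0 := by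
  unfold Z
  rw [mul_eq_zero]
  exact ⟨fun h => h.resolve_left (phase_ne t), Or.inr⟩

lemma zeta_diff (t : ℝ) : DifferentiableAt ℂ riemannZeta (1 / 2 + I * t) := by
  refine differentiableAt_riemannZeta fun h => ?_
  have := congrArg Complex.re h
  norm_num at this

lemma Z_hasDerivAt (t : ℝ) (h : riemannZeta (1 / 2 + I * t) = 0) :
    HasDerivAt Z (phase t * (deriv riemannZeta (1 / 2 + I * t) * I)) t := by
  have hg : HasDerivAt (fun u : ℝ => riemannZeta (1 / 2 + I * u))
      (deriv riemannZeta (1 / 2 + I * t) * I) t := by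
    have h1 : HasDerivAt (fun u : ℝ => (1 / 2 + I * u : ℂ)) I t := by
      have h2 : HasDerivAt (fun u : ℝ => (u : ℂ)) 1 t := Complex.ofRealCLM.hasDerivAt
      simpa using (h2.const_mul I).const_add (1 / 2 : ℂ)
    exact HasDerivAt.comp (h₂ := riemannZeta) t (zeta_diff t).hasDerivAt h1
  rw [hasDerivAt_iff_tendsto_slope] at hg ⊢
  have h3 : Tendsto phase (𝓝[≠] t) (𝓝 (phase t)) :=
    phase_cont.continuousAt.tendsto.mono_left nhdsWithin_le_nhds
  refine (h3.mul hg).congr fun u => ?_
  have hZ : Z t = 0 := (Z_zero_iff t).mpr h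
  rw [slope_def_module, slope_def_module, hZ, h, sub_zero, sub_zero]
  unfold Z
  simp only [Complex.real_smul]
  ring

lemma zeta_analytic {s : ℂ} (hs : s ≠ 1) : AnalyticAt ℂ riemannZeta s := by
  have : DifferentiableOn ℂ riemannZeta ({1}ᶜ : Set ℂ) := fun z hz =>
    (differentiableAt_riemannZeta hz).differentiableWithinAt
  exact this.analyticAt (isOpen_compl_singleton.mem_nhds hs)

/-- a zero of `Z` is simple if the corresponding zero of zeta is simple -/
lemma simple_of_order {t : ℝ} (h : riemannZeta (1 / 2 + I * t) = 0)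
    (h1 : analyticOrderNatAt riemannZeta (1 / 2 + I * t) = 1) : deriv Z t ≠ 0 := by
  rw [(Z_hasDerivAt t h).deriv]
  refine mul_ne_zero (phase_ne t) (mul_ne_zero ?_ I_ne_zero)
  have hs : (1 / 2 + I * t : ℂ) ≠ 1 := by
    intro h
    have := congrArg Complex.re h
    norm_num at this
  have ha := zeta_analytic hs
  have h2 : analyticOrderAt riemannZeta (1 / 2 + I * t) = 1 := by
    unfold analyticOrderNatAt at h1
    have h3 : analyticOrderAt riemannZeta (1 / 2 + I * t) ≠ ⊤ := by
      intro h4; rw [h4] at h1; simp at h1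
    rw [← ENat.natCast_toNat h3, h1]; rfl
  have h3 := ha.analyticOrderAt_deriv_add_one
  simp only [h, sub_zero] at h3
  rw [h2] at h3
  have h4 : analyticOrderAt (deriv riemannZeta) (1 / 2 + I * t) = 0 := by
    revert h3
    generalize analyticOrderAt (deriv riemannZeta) (1 / 2 + I * t) = x
    intro h3
    cases x with
    | top => simp at h3
    | coe n =>
      have h6 : n + 1 = 1 := by exact_mod_cast h3
      have h7 : n = 0 := by omega
      rw [h7]; rfl
  exact ha.deriv.analyticOrderAt_eq_zero.mp h4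

lemma Zeros_ZZ (T : ℝ) : Zeros T = ((ZZ T : Finset ℂ) : Set ℂ) := by
  ext s
  rw [Finset.mem_coe, mem_ZZ]
  constructor
  · rintro ⟨h1, h2, h3, h4, h5⟩
    exact ⟨h1, h2, h3, h4.le, h5⟩
  · intro h
    exact ⟨h.1, h.2.1, h.2.2.1, zs_im_pos h, h.2.2.2.2⟩

lemma N_eq (T : ℝ) : (N T : ℝ) = ∑ s ∈ ZZ T, mm s := by
  unfold N
  rw [Zeros_ZZ, finsum_mem_coe_finset]
  push_cast
  rfl

lemma N_NZ (T : ℝ) : (N T : ℝ) = SG.NZ T := by
  rw [N_eq, NZ_ZZ]
  push_cast
  rfl

lemma X_eq (T : ℝ) : X T = nT T := by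
  unfold X nT; ring

lemma pairs_eq {T : ℝ} (hT : 10 ≤ T) {P : ℂ × ℂ → Prop} {S : Set ℝ} (hS : MeasurableSet S)
    (hP : ∀ p : ℂ × ℂ, P p ↔ (p.1.im - p.2.im) * Real.log T / (2 * Real.pi) ∈ S) :
    ((∑ᶠ p ∈ {p : ℂ × ℂ | p.1 ∈ Zeros T ∧ p.2 ∈ Zeros T ∧ P p}, mult p.1 * mult p.2 : ℕ) : ℝ) /
      X T = (Mp T).real S := by
  classical
  have hset : {p : ℂ × ℂ | p.1 ∈ Zeros T ∧ p.2 ∈ Zeros T ∧ P p} =
      (((ZZ T ×ˢ ZZ T).filter fun p : ℂ × ℂ =>
        (p.1.im - p.2.im) * Real.log T / (2 * Real.pi) ∈ S : Finset (ℂ × ℂ)) :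
          Set (ℂ × ℂ)) := by
    ext p
    rw [Finset.coe_filter]
    simp only [Set.mem_ofPred_eq, Finset.mem_product, Zeros_ZZ, Finset.mem_coe]
    rw [hP, and_assoc]
  rw [Mp_real hT hS, hset, finsum_mem_coe_finset, X_eq]
  congr 1
  unfold RR
  rw [← Finset.sum_product']
  push_cast
  rw [Finset.sum_filter]
  refine Finset.sum_congr rfl fun p _ => ?_
  by_cases h : (p.1.im - p.2.im) * Real.log T / (2 * Real.pi) ∈ S
  · rw [if_pos h, Set.indicator_of_mem h, mul_one]
    rfl
  · rw [if_neg h, Set.indicator_of_notMem h, mul_zero]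

lemma D_eq {T : ℝ} (hT : 10 ≤ T) : D T = DG T := by
  have hL := one_lt_log (show 3 ≤ T by linarith)
  have hpi := Real.pi_pos
  unfold D DG
  refine pairs_eq hT (P := fun p => p.1.im = p.2.im) (measurableSet_singleton 0) fun p => ?_
  rw [Set.mem_singleton_iff, div_eq_zero_iff, mul_eq_zero, sub_eq_zero]
  constructor
  · intro h; left; left; exact h
  · rintro ((h | h) | h)
    · exact h
    · linarith
    · linarith

lemma G_eq {T : ℝ} (hT : 10 ≤ T) (a : ℝ) : G T a = NS T a := by
  have hL := one_lt_log (show 3 ≤ T by linarith)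
  have hL0 : 0 < Real.log T := by linarith
  have hpi := Real.pi_pos
  unfold G NS
  refine pairs_eq hT (P := fun p => 0 < p.1.im - p.2.im ∧
    p.1.im - p.2.im ≤ 2 * Real.pi * a / Real.log T) measurableSet_Ioc fun p => ?_
  rw [Set.mem_Ioc]
  have e1 : 0 < p.1.im - p.2.im ↔ 0 < (p.1.im - p.2.im) * Real.log T / (2 * Real.pi) := by
    constructor
    · intro h; positivity
    · intro h
      by_contra hcon
      push Not at hcon
      have : (p.1.im - p.2.im) * Real.log T / (2 * Real.pi) ≤ 0 :=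
        div_nonpos_of_nonpos_of_nonneg (mul_nonpos_of_nonpos_of_nonneg hcon hL0.le) (by positivity)
      linarith
  have e2 : p.1.im - p.2.im ≤ 2 * Real.pi * a / Real.log T ↔
      (p.1.im - p.2.im) * Real.log T / (2 * Real.pi) ≤ a := by
    rw [le_div_iff₀ hL0, div_le_iff₀ (by positivity), mul_comm a]
  rw [e1, e2]

/-- the set of simple zeros of `Z` up to height `T` is finite -/
lemma simpleZeros_finite (T : ℝ) : (simpleZeros T).Finite := by
  have hinj : Function.Injective fun t : ℝ => (1 / 2 + I * t : ℂ) := by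
    intro a b hab
    have := congrArg Complex.im hab
    simpa using this
  have hf : (Zeros T).Finite := by rw [Zeros_ZZ]; exact Finset.finite_toSet _
  refine Set.Finite.of_finite_image (hf.subset ?_) hinj.injOn
  rintro s ⟨t, ⟨h1, h2, h3, h4⟩, rfl⟩
  refine ⟨(Z_zero_iff t).mp h3, ?_, ?_, ?_, ?_⟩ <;> simp <;> first | assumption | norm_num

lemma mm_pos {T : ℝ} {s : ℂ} (hs : s ∈ ZZ T) : 1 ≤ H370.mult riemannZeta s := by
  have h0 := zs_im_pos (mem_ZZ.1 hs)
  rw [mem_ZZ] at hs
  exact H370.Loc.mult_pos' H370.good_zeta h0 hs.1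

lemma refl_mem {T : ℝ} {s : ℂ} (hs : s ∈ ZZ T) (h1 : 1 < s.im) :
    1 - (starRingEnd ℂ) s ∈ ZZ T := by
  rw [mem_ZZ] at hs
  have h2 : s ∈ H370.zset riemannZeta 1 T := ⟨hs.2.1, hs.2.2.1, h1, hs.2.2.2.2, hs.1⟩
  have h3 := H370.zset_refl H370.good_zeta le_rfl h2
  rw [mem_ZZ]
  exact ⟨h3.2.2.2.2, h3.1, h3.2.1, by linarith [h3.2.2.1], h3.2.2.2.1⟩

/-- lower bound for the number of simple zeros -/
lemma simple_lower : ∃ K : ℝ, 0 ≤ K ∧ ∀ T : ℝ, 10 ≤ T →
    2 * (N T : ℝ) - DG T * nT T - K ≤ ((simpleZeros T).ncard : ℝ) := by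
  classical
  refine ⟨2 * ∑ s ∈ ZZ 1, mm s, by
    have := Finset.sum_nonneg (s := ZZ 1) (f := mm) fun s _ => mm_nonneg s
    linarith, fun T hT => ?_⟩
  have hn := nT_pos hT
  have hL := one_lt_log (show 3 ≤ T by linarith)
  have hpi := Real.pi_pos
  obtain ⟨Mn, hMn⟩ : ∃ Mn : ℂ → ℕ, ∀ s, Mn s = ∑ s' ∈ (ZZ T).filter (fun s' => s'.im = s.im),
    H370.mult riemannZeta s' := ⟨_, fun s => rfl⟩
  obtain ⟨g, hg⟩ : ∃ g : ℂ → ℝ, ∀ s, g s = if s.re = 1 / 2 ∧ H370.mult riemannZeta s = 1 then 1
    else 0 := ⟨_, fun s => rfl⟩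
  have hDG : DG T * nT T = ∑ s ∈ ZZ T, mm s * (Mn s : ℝ) := by
    unfold DG
    rw [Mp_real hT (measurableSet_singleton 0), div_mul_cancel₀ _ hn.ne']
    unfold RR
    refine Finset.sum_congr rfl fun s _ => ?_
    rw [hMn]
    push_cast
    rw [Finset.mul_sum, Finset.sum_filter]
    refine Finset.sum_congr rfl fun s' _ => ?_
    by_cases h : s'.im = s.im
    · rw [if_pos h, Set.indicator_of_mem]
      · rw [mul_one]; rfl
      · rw [h, sub_self, zero_mul, zero_div]; rfl
    · rw [if_neg h, Set.indicator_of_notMem, mul_zero]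
      intro h2
      rw [Set.mem_singleton_iff, div_eq_zero_iff, mul_eq_zero, sub_eq_zero] at h2
      rcases h2 with (h2 | h2) | h2
      · exact h h2.symm
      · linarith
      · linarith
  have hpt : ∀ s ∈ ZZ T, 2 * mm s - g s - (if s.im ≤ 1 then 2 * mm s else 0) ≤
      mm s * (Mn s : ℝ) := by
    intro s hs
    have h1 := mm_pos hs
    have hmm : mm s = (H370.mult riemannZeta s : ℝ) := rfl
    have hself : H370.mult riemannZeta s ≤ Mn s := by
      rw [hMn]
      exact Finset.single_le_sum (f := fun s' => H370.mult riemannZeta s')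
        (fun _ _ => Nat.zero_le _) (Finset.mem_filter.2 ⟨hs, rfl⟩)
    have hg0 : 0 ≤ g s := by rw [hg]; split_ifs <;> norm_num
    have hm0 : 0 ≤ mm s := mm_nonneg s
    have hM0 : (0 : ℝ) ≤ Mn s := Nat.cast_nonneg _
    by_cases hi : s.im ≤ 1
    · rw [if_pos hi]
      have := mul_nonneg hm0 hM0
      linarith
    · rw [if_neg hi, sub_zero]
      rcases Nat.lt_or_ge (Mn s) 2 with h2 | h2
      · have h3 : H370.mult riemannZeta s = 1 := by omega
        have h4 : Mn s = 1 := by omega
        have hre : s.re = 1 / 2 := by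
          by_contra hcon
          have hr := refl_mem hs (not_le.1 hi)
          have hne : 1 - (starRingEnd ℂ) s ≠ s := by
            intro h
            have := congrArg Complex.re h
            simp at this
            apply hcon
            linarith
          have hsub : ({1 - (starRingEnd ℂ) s, s} : Finset ℂ) ⊆
              (ZZ T).filter (fun s' => s'.im = s.im) := by
            intro z hz
            rw [Finset.mem_insert, Finset.mem_singleton] at hz
            rcases hz with rfl | rfl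
            · exact Finset.mem_filter.2 ⟨hr, by simp⟩
            · exact Finset.mem_filter.2 ⟨hs, rfl⟩
          have h5 : ∑ z ∈ ({1 - (starRingEnd ℂ) s, s} : Finset ℂ), H370.mult riemannZeta z ≤
              Mn s := by
            rw [hMn]
            exact Finset.sum_le_sum_of_subset hsub
          rw [Finset.sum_pair hne] at h5
          have := mm_pos hr
          omega
        have h5 : g s = 1 := by rw [hg, if_pos ⟨hre, h3⟩]
        rw [h5, hmm, h3, h4]
        norm_num
      · have h3 : (2 : ℝ) ≤ Mn s := by exact_mod_cast h2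
        nlinarith
  have hsum := Finset.sum_le_sum hpt
  rw [← hDG, Finset.sum_sub_distrib, Finset.sum_sub_distrib, ← Finset.mul_sum, ← N_eq] at hsum
  have hfil : ∑ s ∈ ZZ T, (if s.im ≤ 1 then 2 * mm s else 0) = 2 * ∑ s ∈ ZZ 1, mm s := by
    rw [← Finset.sum_filter, ← Finset.mul_sum]
    congr 2
    ext s
    rw [Finset.mem_filter, mem_ZZ, mem_ZZ]
    constructor
    · rintro ⟨⟨a1, a2, a3, a4, a5⟩, a6⟩
      exact ⟨a1, a2, a3, a4, a6⟩
    · rintro ⟨a1, a2, a3, a4, a5⟩
      exact ⟨⟨a1, a2, a3, a4, by linarith⟩, a5⟩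
  have hgs : ∑ s ∈ ZZ T, g s ≤ ((simpleZeros T).ncard : ℝ) := by
    have e1 : ∑ s ∈ ZZ T, g s = (((ZZ T).filter
        (fun s : ℂ => s.re = 1 / 2 ∧ H370.mult riemannZeta s = 1)).card : ℝ) := by
      simp_rw [hg]
      rw [← Finset.sum_filter, Finset.sum_const, nsmul_eq_mul, mul_one]
    rw [e1]
    refine Nat.cast_le.2 ?_
    rw [← Set.ncard_coe_finset]
    refine Set.ncard_le_ncard_of_injOn (fun s : ℂ => s.im) ?_ ?_ (simpleZeros_finite T)
    · intro s hs
      rw [Finset.coe_filter] at hs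
      obtain ⟨h1, h2, h3⟩ := hs
      have h4 := zs_im_pos (mem_ZZ.1 h1)
      rw [mem_ZZ] at h1
      have hs' : (1 / 2 + I * s.im : ℂ) = s := by
        apply Complex.ext
        · simp [h2]
        · simp
      refine ⟨h4, h1.2.2.2.2, ?_, ?_⟩
      · rw [Z_zero_iff, hs']; exact h1.1
      · apply simple_of_order
        · rw [hs']; exact h1.1
        · rw [hs']; exact h3
    · intro s hs s' hs' h
      rw [Finset.coe_filter] at hs hs'
      exact Complex.ext (hs.2.1.trans hs'.2.1.symm) h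
  rw [hfil] at hsum
  linarith

/-- the number of all zeros -/
lemma N_asy {ε : ℝ} (hε : 0 < ε) : ∀ᶠ T in atTop,
    (1 - ε) * nT T ≤ (N T : ℝ) ∧ (N T : ℝ) ≤ (1 + ε) * nT T := by
  filter_upwards [N_asymp hε] with T hT
  rw [N_NZ]
  exact hT

/-- `D` is bounded -/
lemma DG_upper : ∃ C : ℝ, 1 ≤ C ∧ ∀ᶠ T in atTop, 0 ≤ DG T ∧ DG T ≤ C := by
  obtain ⟨Cb, hCb, hBd⟩ := Mp_bdd
  refine ⟨Cb, by linarith, ?_⟩
  filter_upwards [hBd] with T hT
  refine ⟨MeasureTheory.measureReal_nonneg, ?_⟩
  unfold DG MeasureTheory.Measure.real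
  refine ENNReal.toReal_le_of_le_ofReal (by linarith) (le_trans (MeasureTheory.measure_mono ?_) (hT 0))
  intro x hx
  rw [Set.mem_singleton_iff] at hx
  rw [hx]
  norm_num

lemma nT_top : Tendsto nT atTop atTop := by
  unfold nT
  have h2 : Tendsto (fun T : ℝ => T * Real.log T) atTop atTop :=
    tendsto_id.atTop_mul_atTop₀ Real.tendsto_log_atTop
  exact h2.atTop_div_const (by positivity)

/-- upper bound for the number of simple zeros -/
lemma simple_upper (T : ℝ) : ((simpleZeros T).ncard : ℝ) ≤ N T := by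
  classical
  have hinj : Function.Injective fun t : ℝ => (1 / 2 + I * t : ℂ) := by
    intro a b hab
    have := congrArg Complex.im hab
    simpa using this
  have h1 : (simpleZeros T).ncard ≤ ((ZZ T : Finset ℂ) : Set ℂ).ncard := by
    refine Set.ncard_le_ncard_of_injOn (fun t : ℝ => (1 / 2 + I * t : ℂ)) ?_ hinj.injOn
      (Finset.finite_toSet _)
    rintro t ⟨h1, h2, h3, h4⟩
    rw [← Zeros_ZZ]
    refine ⟨(Z_zero_iff t).mp h3, ?_, ?_, ?_, ?_⟩ <;> simp <;> first | assumption | norm_num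
  rw [Set.ncard_coe_finset] at h1
  rw [N_eq]
  have h2 : ((ZZ T).card : ℝ) ≤ ∑ s ∈ ZZ T, mm s := by
    rw [Finset.card_eq_sum_ones]
    push_cast
    refine Finset.sum_le_sum fun s hs => ?_
    have := mm_pos hs
    show (1 : ℝ) ≤ (H370.mult riemannZeta s : ℝ)
    exact_mod_cast this
  exact le_trans (by exact_mod_cast h1) h2

theorem result :
    (∃ C : ℝ, 0 < C ∧
      (∀ A B : ℝ, 0 ≤ A → A < B → ∀ᶠ T in atTop,
        |(B - A) * D T - 2 * (∫ a in A..B, (a - G T a)) -
          1 / Real.pi ^ 2 * Real.log ((1 + B) / (1 + A))| ≤ C) ∧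
      ∀ A B ε : ℝ, 0 ≤ A → A < B → 0 < ε → ∀ᶠ T in atTop,
        (2 - (2 * (∫ a in A..B, (a - G T a)) + 1 / Real.pi ^ 2 * Real.log ((1 + B) / (1 + A)) + C) /
          (B - A) - ε) * N T ≤ (simpleZeros T).ncard) ∧
    ∀ l : Filter ℝ, l ≤ atTop →
      (Tendsto D l (𝓝 1) ↔ LongRange l) ∧
      (LongRange l → Tendsto (fun T => ((simpleZeros T).ncard : ℝ) / N T) l (𝓝 1)) := by
  obtain ⟨C, hC, hsum⟩ := sum_rule
  have h1 : ∀ A B : ℝ, 0 ≤ A → A < B → ∀ᶠ T in atTop,
      |(B - A) * D T - 2 * (∫ a in A..B, (a - G T a)) -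
        1 / Real.pi ^ 2 * Real.log ((1 + B) / (1 + A))| ≤ C := by
    intro A B hA hAB
    filter_upwards [hsum A B hA hAB, eventually_ge_atTop 10] with T hT h10
    rw [D_eq h10]
    simp_rw [G_eq h10]
    exact hT
  have hcrit : ∀ l : Filter ℝ, l ≤ atTop → (Tendsto D l (𝓝 1) ↔ LongRange l) := by
    intro l hl
    constructor
    · intro hD η M hη
      have hlog : ∀ᶠ x : ℝ in atTop, Real.log (1 + x) ≤ η * x := by
        have h2 : (fun x : ℝ => Real.log (1 + x)) =o[atTop] fun x : ℝ => x := by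
          have h3 := Real.isLittleO_log_id_atTop.comp_tendsto
            (tendsto_atTop_add_const_left atTop (1 : ℝ) tendsto_id)
          refine (h3.trans_isBigO ?_)
          refine Asymptotics.IsBigO.of_bound 2 ?_
          filter_upwards [eventually_ge_atTop 1] with x hx
          simp only [Function.comp, id, Real.norm_eq_abs]
          rw [abs_of_pos (by linarith), abs_of_pos (by linarith)]
          linarith
        filter_upwards [h2.bound hη, eventually_ge_atTop 0] with x hx hx0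
        rw [Real.norm_eq_abs, Real.norm_eq_abs, abs_of_nonneg hx0] at hx
        exact (le_abs_self _).trans hx
      obtain ⟨B, hB1, hB2, hB3, hB4⟩ := (hlog.and ((eventually_ge_atTop M).and
        ((eventually_ge_atTop 1).and (eventually_ge_atTop (C / η))))).exists
      have hB0 : 0 < B := by linarith
      refine ⟨0, B, le_rfl, hB0, by linarith, by simpa using hB1, ?_⟩
      have hD1 : ∀ᶠ T in l, D T < 1 + η :=
        hD.eventually (gt_mem_nhds (show (1 : ℝ) < 1 + η by linarith))
      filter_upwards [hD1, hl (h1 0 B le_rfl hB0)] with T a1 a2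
      rw [abs_le] at a2
      have hlogp : 0 ≤ Real.log ((1 + B) / (1 + 0)) := by
        apply Real.log_nonneg
        rw [add_zero, div_one]; linarith
      have hp : 0 ≤ 1 / Real.pi ^ 2 * Real.log ((1 + B) / (1 + 0)) := by positivity
      rw [div_le_iff₀ hη] at hB4
      rw [sub_zero] at a2 ⊢
      rw [div_mul_eq_mul_div, one_mul, div_le_iff₀ hB0]
      nlinarith [a2.1, a2.2]
    · intro hLR
      rw [Metric.tendsto_nhds]
      intro ε hε
      obtain ⟨A, B, hA, hAB, hM, hlg, hev⟩ := hLR (ε / 8) (8 * C / ε) (by positivity)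
      have hlow := hl (DG_lower (show 0 < ε / 2 by positivity))
      filter_upwards [hev, hl (h1 A B hA hAB), hlow, hl (eventually_ge_atTop 10)] with T a1 a2 a3 a4
      rw [← D_eq a4] at a3
      rw [Real.dist_eq, abs_lt]
      refine ⟨by linarith, ?_⟩
      have hBA : 0 < B - A := by linarith
      rw [abs_le] at a2
      have hpi := Real.pi_gt_three
      have hp2 : 1 / Real.pi ^ 2 ≤ 1 := by
        rw [div_le_one (by positivity)]
        nlinarith
      have hlogp : 0 ≤ Real.log ((1 + B) / (1 + A)) := by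
        apply Real.log_nonneg
        rw [le_div_iff₀ (by linarith)]; linarith
      have h5 : 1 / Real.pi ^ 2 * Real.log ((1 + B) / (1 + A)) ≤ ε / 8 * (B - A) :=
        (mul_le_of_le_one_left hlogp hp2).trans hlg
      rw [div_mul_eq_mul_div, one_mul, div_le_iff₀ hBA] at a1
      have h6 : 8 * C ≤ (B - A) * ε := by
        rw [← div_le_iff₀ hε]; linarith
      by_contra hcon
      push Not at hcon
      have h7 : (B - A) * (1 + ε) ≤ (B - A) * D T :=
        mul_le_mul_of_nonneg_left (by linarith) hBA.le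
      nlinarith [a2.1, a2.2]
  obtain ⟨K, hK, hlow⟩ := simple_lower
  refine ⟨⟨C, hC, h1, ?_⟩, fun l hl => ⟨hcrit l hl, fun hLR => ?_⟩⟩
  · intro A B ε hA hAB hε
    obtain ⟨Cd, hCd, hDu⟩ := DG_upper
    have hBA : 0 < B - A := by linarith
    obtain ⟨δ, hδ, hδ1, hδ2⟩ : ∃ δ : ℝ, 0 < δ ∧ δ ≤ 1 / 2 ∧ Cd * (2 * δ) ≤ ε / 2 :=
      ⟨min (1 / 2) (ε / (4 * Cd)), by positivity, min_le_left _ _, by
        have := min_le_right (1 / 2) (ε / (4 * Cd))
        calc Cd * (2 * min (1 / 2) (ε / (4 * Cd))) ≤ Cd * (2 * (ε / (4 * Cd))) := by gcongr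
          _ = ε / 2 := by field_simp; norm_num⟩
    filter_upwards [h1 A B hA hAB, hDu, N_asy hδ, eventually_ge_atTop 10,
      (nT_top.eventually_ge_atTop (4 * K / ε))] with T a1 a2 a3 a4 a5
    have hn := nT_pos a4
    rw [abs_le] at a1
    obtain ⟨q, hq⟩ : ∃ q : ℝ, q = (2 * (∫ a in A..B, (a - G T a)) +
      1 / Real.pi ^ 2 * Real.log ((1 + B) / (1 + A)) + C) / (B - A) := ⟨_, rfl⟩
    rw [← hq]
    have hDq : DG T ≤ q := by
      rw [hq, le_div_iff₀ hBA, ← D_eq a4]
      linarith [a1.2]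
    have hnN : nT T ≤ (1 + 2 * δ) * N T := by
      have h2 : nT T ≤ (1 + 2 * δ) * ((1 - δ) * nT T) := by
        have : 0 ≤ δ * (1 - 2 * δ) * nT T := by
          have : 0 ≤ 1 - 2 * δ := by linarith
          positivity
        nlinarith
      exact h2.trans (mul_le_mul_of_nonneg_left a3.1 (by linarith))
    have hN0 : (0 : ℝ) ≤ N T := Nat.cast_nonneg _
    have h3 : DG T * nT T ≤ q * N T + ε / 2 * N T := by
      calc DG T * nT T ≤ DG T * ((1 + 2 * δ) * N T) := mul_le_mul_of_nonneg_left hnN a2.1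
        _ = DG T * N T + DG T * (2 * δ) * N T := by ring
        _ ≤ q * N T + ε / 2 * N T := by
          have h4 : DG T * (2 * δ) ≤ ε / 2 :=
            (mul_le_mul_of_nonneg_right a2.2 (by linarith)).trans hδ2
          exact add_le_add (mul_le_mul_of_nonneg_right hDq hN0)
            (mul_le_mul_of_nonneg_right h4 hN0)
    have h5 : K ≤ ε / 2 * N T := by
      have h6 : nT T / 2 ≤ N T := by
        have : (1 / 2 : ℝ) * nT T ≤ (1 - δ) * nT T :=
          mul_le_mul_of_nonneg_right (by linarith) hn.le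
        linarith [a3.1]
      have h7 : 4 * K ≤ nT T * ε := by rwa [div_le_iff₀ hε] at a5
      nlinarith
    linarith [hlow T a4]
  · have hD := (hcrit l hl).2 hLR
    rw [Metric.tendsto_nhds]
    intro ε hε
    obtain ⟨δ, hδ, hδ1, hδ2⟩ : ∃ δ : ℝ, 0 < δ ∧ δ ≤ 1 / 2 ∧ 16 * δ ≤ ε :=
      ⟨min (1 / 2) (ε / 16), by positivity, min_le_left _ _, by
        have := min_le_right (1 / 2) (ε / 16)
        linarith⟩
    have hD1 : ∀ᶠ T in l, D T < 1 + δ :=
      hD.eventually (gt_mem_nhds (show (1 : ℝ) < 1 + δ by linarith))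
    filter_upwards [hD1, hl (N_asy hδ), hl (eventually_ge_atTop 10),
      hl (nT_top.eventually_ge_atTop (2 * K / δ))] with T a1 a3 a4 a5
    have hn := nT_pos a4
    rw [D_eq a4] at a1
    have h6 : nT T / 2 ≤ N T := by
      have : (1 / 2 : ℝ) * nT T ≤ (1 - δ) * nT T :=
        mul_le_mul_of_nonneg_right (by linarith) hn.le
      linarith [a3.1]
    have hN : (0 : ℝ) < N T := by linarith
    have hnN : nT T ≤ (1 + 2 * δ) * N T := by
      have h2 : nT T ≤ (1 + 2 * δ) * ((1 - δ) * nT T) := by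
        have : 0 ≤ δ * (1 - 2 * δ) * nT T := by
          have : 0 ≤ 1 - 2 * δ := by linarith
          positivity
        nlinarith
      exact h2.trans (mul_le_mul_of_nonneg_left a3.1 (by linarith))
    have h3 : DG T * nT T ≤ (1 + 4 * δ) * N T := by
      calc DG T * nT T ≤ (1 + δ) * nT T := mul_le_mul_of_nonneg_right a1.le hn.le
        _ ≤ (1 + δ) * ((1 + 2 * δ) * N T) := mul_le_mul_of_nonneg_left hnN (by linarith)
        _ = ((1 + δ) * (1 + 2 * δ)) * N T := by ring
        _ ≤ (1 + 4 * δ) * N T := mul_le_mul_of_nonneg_right (by nlinarith) hN.le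
    have h5 : K ≤ δ * N T := by
      have h7 : 2 * K ≤ nT T * δ := by rwa [div_le_iff₀ hδ] at a5
      nlinarith
    have h8 : (1 - 5 * δ) * N T ≤ (simpleZeros T).ncard := by linarith [hlow T a4]
    have h9 := simple_upper T
    rw [Real.dist_eq, abs_lt]
    constructor
    · have : 1 - 5 * δ ≤ ((simpleZeros T).ncard : ℝ) / N T := by rwa [le_div_iff₀ hN]
      linarith
    · have : ((simpleZeros T).ncard : ℝ) / N T ≤ 1 := by rwa [div_le_one hN]
      linarith

end Pool.Agent.Results.MP_6bc78b_nt.LongRangePairs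

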