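import Pool.Agent.H313R3.TK.J

set_option autoImplicit false

/-!
# MP_6bc78b_nt: one-sided bounds for the Mertens function on sparse windows and simple zeros of `Z`

Let `M(y) = ∑_{n ≤ y} μ(n)`.  If `ρ` is a zero of `ζ` with real part `β ≥ 1/2` then for some `c > 0` and all large
`x` both signs `s = 1, -1` satisfy `s M(y) ≥ c y ^ β` for some `y` in `[x, x log x]`; for a multiple zero even
`s M(y) ≥ c y ^ β log y`.  In particular `M(y) ≥ c √y` and `M(y') ≤ -c √y'` for some `y, y'` in every such window, and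
if for one sign `s` and every `ε > 0` there are arbitrarily large `x` with `s M(y) ≤ ε √y log y` for all `y` in
`[x, x log x]`, then all zeros of Hardy's function `Z` are simple and the Riemann hypothesis holds.
-/

namespace Pool.Agent.Results.MP_6bc78b_nt.SignedWindows

open Filter Topology Complex

/-- The Mertens function. -/
noncomputable def M (y : ℝ) : ℝ := ∑ n ∈ Finset.Icc 1 ⌊y⌋₊, ((ArithmeticFunction.moebius n : ℤ) : ℝ)

/-- the phase `exp (i ϑ(t))`, with `ϑ(t) = arg Γ(1/4 + i t / 2) - (t / 2) log π` -/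
noncomputable def phase (t : ℝ) : ℂ :=
  Gamma (1 / 4 + I * t / 2) / ‖Gamma (1 / 4 + I * t / 2)‖ * cexp (-(I * (t / 2) * Real.log Real.pi))

/-- Hardy's function `Z(t) = exp (i ϑ(t)) ζ(1/2 + i t)` -/
noncomputable def Z (t : ℝ) : ℂ := phase t * riemannZeta (1 / 2 + I * t)

lemma gamma_ne (t : ℝ) : Gamma (1 / 4 + I * t / 2) ≠ 0 := by
  apply Gamma_ne_zero_of_re_pos
  simp

lemma gamma_cont : Continuous fun t : ℝ => Gamma (1 / 4 + I * t / 2) := by
  rw [continuous_iff_continuousAt]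
  intro t
  have h1 : ContinuousAt Gamma (1 / 4 + I * t / 2) := by
    refine (differentiableAt_Gamma _ fun m hm => ?_).continuousAt
    have := congrArg Complex.re hm
    simp at this
    have hm0 : (0 : ℝ) ≤ m := Nat.cast_nonneg m
    linarith
  exact ContinuousAt.comp (f := fun t : ℝ => (1 / 4 + I * t / 2 : ℂ)) h1 (by fun_prop)

lemma phase_cont : Continuous phase := by
  unfold phase
  refine Continuous.mul (gamma_cont.div ?_ ?_) (by fun_prop)
  · exact Complex.continuous_ofReal.comp gamma_cont.norm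
  · intro t
    rw [Complex.ofReal_ne_zero]
    exact norm_ne_zero_iff.mpr (gamma_ne t)

lemma phase_ne (t : ℝ) : phase t ≠ 0 := by
  unfold phase
  refine mul_ne_zero (div_ne_zero (gamma_ne t) ?_) (Complex.exp_ne_zero _)
  rw [Complex.ofReal_ne_zero]
  exact norm_ne_zero_iff.mpr (gamma_ne t)

lemma Z_zero_iff (t : ℝ) : Z t = 0 ↔ riemannZeta (1 / 2 + I * t) = 0 := by
  unfold Z
  rw [mul_eq_zero]
  exact ⟨fun h => h.resolve_left (phase_ne t), Or.inr⟩

lemma zeta_diff (t : ℝ) : DifferentiableAt ℂ riemannZeta (1 / 2 + I * t) := by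
  refine differentiableAt_riemannZeta fun h => ?_
  have := congrArg Complex.re h
  norm_num at this

lemma Z_hasDerivAt (t : ℝ) (h : riemannZeta (1 / 2 + I * t) = 0) :
    HasDerivAt Z (phase t * (deriv riemannZeta (1 / 2 + I * t) * I)) t := by
  have hg : HasDerivAt (fun u : ℝ => riemannZeta (1 / 2 + I * u))
      (deriv riemannZeta (1 / 2 + I * t) * I) t := by
    have h1 : HasDerivAt (fun u : ℝ => (1 / 2 + I * u : ℂ)) I t := by
      have h2 : HasDerivAt (fun u : ℝ => (u : ℂ)) 1 t := Complex.ofRealCLM.hasDerivAt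
      simpa using (h2.const_mul I).const_add (1 / 2 : ℂ)
    exact HasDerivAt.comp (h₂ := riemannZeta) t (zeta_diff t).hasDerivAt h1
  rw [hasDerivAt_iff_tendsto_slope] at hg ⊢
  have h3 : Tendsto phase (𝓝[≠] t) (𝓝 (phase t)) :=
    phase_cont.continuousAt.tendsto.mono_left nhdsWithin_le_nhds
  refine (h3.mul hg).congr fun u => ?_
  have hZ : Z t = 0 := (Z_zero_iff t).mpr h
  rw [slope_def_module, slope_def_module, hZ, h, sub_zero, sub_zero]
  unfold Z
  simp only [Complex.real_smul]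
  ring

lemma deriv_Z_ne {t : ℝ} (h : riemannZeta (1 / 2 + I * t) = 0)
    (h1 : deriv riemannZeta (1 / 2 + I * t) ≠ 0) : deriv Z t ≠ 0 := by
  rw [(Z_hasDerivAt t h).deriv]
  exact mul_ne_zero (phase_ne t) (mul_ne_zero h1 I_ne_zero)

theorem M_eq (y : ℝ) : M y = H313.TK.MM y := rfl

/-- the pointwise one-sided bound excludes zeros to the right of the line and multiple zeros -/
theorem half (s : ℝ) (hs : s = 1 ∨ s = -1)
    (h : ∀ ε : ℝ, 0 < ε → ∃ᶠ x : ℝ in atTop, ∀ y ∈ Set.Icc x (x * Real.log x),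
      s * M y ≤ ε * (Real.sqrt y * Real.log y))
    (ρ : ℂ) (hz : riemannZeta ρ = 0) (h0 : 1 / 2 ≤ ρ.re) (h1 : ρ.re < 1) :
    ρ.re = 1 / 2 ∧ deriv riemannZeta ρ ≠ 0 := by
  have hre : ρ.re = 1 / 2 := by
    by_contra hcon
    have hgt : 1 / 2 < ρ.re := lt_of_le_of_ne h0 (Ne.symm hcon)
    obtain ⟨c, hc, hev⟩ := H313.TK.signs ρ hz h0 h1
    have h3 : ∀ᶠ y : ℝ in atTop, Real.log y ≤ c / 2 * y ^ (ρ.re - 1 / 2) := by
      have h4 := (isLittleO_log_rpow_atTop (show 0 < ρ.re - 1 / 2 by linarith)).def (half_pos hc)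
      filter_upwards [h4, eventually_gt_atTop 1] with y hy hy1
      rw [Real.norm_eq_abs, Real.norm_eq_abs, abs_of_nonneg (Real.log_nonneg hy1.le),
        abs_of_pos (Real.rpow_pos_of_pos (by linarith) _)] at hy
      exact hy
    obtain ⟨Y, hY⟩ := eventually_atTop.1 h3
    obtain ⟨x, hx, hx1, hx2, hx3⟩ := ((h 1 one_pos).and_eventually (hev.and
      ((eventually_ge_atTop Y).and (eventually_gt_atTop 1)))).exists
    obtain ⟨y, hy, hy2⟩ := hx1 s hs
    have hy0 : 0 < y := by linarith [hy.1]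
    have h5 := hx y hy
    have h6 := hY y (hx2.trans hy.1)
    have h7 : Real.sqrt y * y ^ (ρ.re - 1 / 2) = y ^ ρ.re := by
      rw [Real.sqrt_eq_rpow, ← Real.rpow_add hy0]
      congr 1
      ring
    have h8 : 0 < y ^ ρ.re := Real.rpow_pos_of_pos hy0 _
    have h9 : Real.sqrt y * Real.log y ≤ c / 2 * y ^ ρ.re := by
      calc Real.sqrt y * Real.log y ≤ Real.sqrt y * (c / 2 * y ^ (ρ.re - 1 / 2)) :=
            mul_le_mul_of_nonneg_left h6 (Real.sqrt_nonneg _)
        _ = c / 2 * (Real.sqrt y * y ^ (ρ.re - 1 / 2)) := by ring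
        _ = c / 2 * y ^ ρ.re := by rw [h7]
    rw [M_eq] at h5
    nlinarith [mul_pos hc h8]
  refine ⟨hre, fun hd => ?_⟩
  obtain ⟨c, hc, hev⟩ := H313.TK.signs2 ρ hz hd h0 h1
  obtain ⟨x, hx, hx1, hx3⟩ := ((h (c / 2) (by positivity)).and_eventually (hev.and
      (eventually_gt_atTop 1))).exists
  obtain ⟨y, hy, hy2⟩ := hx1 s hs
  have hy1 : 1 < y := by linarith [hy.1]
  have h5 := hx y hy
  rw [M_eq] at h5
  have h7 : y ^ ρ.re = Real.sqrt y := by rw [hre, Real.sqrt_eq_rpow]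
  rw [h7] at hy2
  have h8 : 0 < Real.sqrt y * Real.log y := mul_pos (Real.sqrt_pos.2 (by linarith)) (Real.log_pos hy1)
  nlinarith [mul_pos hc h8]

theorem result :
    -- a zero is felt with its full power and with both signs on every window
    (∀ ρ : ℂ, riemannZeta ρ = 0 → 1 / 2 ≤ ρ.re → ρ.re < 1 →
      ∃ c : ℝ, 0 < c ∧ ∀ᶠ x : ℝ in atTop, ∀ s : ℝ, s = 1 ∨ s = -1 →
        ∃ y ∈ Set.Icc x (x * Real.log x), c * y ^ ρ.re ≤ s * M y) ∧
    -- a multiple zero gives an additional logarithm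
    (∀ ρ : ℂ, riemannZeta ρ = 0 → deriv riemannZeta ρ = 0 → 1 / 2 ≤ ρ.re → ρ.re < 1 →
      ∃ c : ℝ, 0 < c ∧ ∀ᶠ x : ℝ in atTop, ∀ s : ℝ, s = 1 ∨ s = -1 →
        ∃ y ∈ Set.Icc x (x * Real.log x), c * (y ^ ρ.re * Real.log y) ≤ s * M y) ∧
    -- large values of both signs on every window
    (∃ c : ℝ, 0 < c ∧ ∀ᶠ x : ℝ in atTop,
      (∃ y ∈ Set.Icc x (x * Real.log x), c * Real.sqrt y ≤ M y) ∧
      (∃ y ∈ Set.Icc x (x * Real.log x), M y ≤ -(c * Real.sqrt y))) ∧
    -- the criterion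
    (∀ s : ℝ, s = 1 ∨ s = -1 →
      (∀ ε : ℝ, 0 < ε → ∃ᶠ x : ℝ in atTop, ∀ y ∈ Set.Icc x (x * Real.log x),
        s * M y ≤ ε * (Real.sqrt y * Real.log y)) →
      (∀ t : ℝ, Z t = 0 → deriv Z t ≠ 0) ∧
      (∀ ρ : ℂ, riemannZeta ρ = 0 → 0 < ρ.re → ρ.re < 1 → ρ.re = 1 / 2)) := by
  refine ⟨fun ρ hz h0 h1 => H313.TK.signs ρ hz h0 h1, fun ρ hz hd h0 h1 => H313.TK.signs2 ρ hz hd h0 h1, ?_, ?_⟩
  · obtain ⟨ρ, hz, h0, h1⟩ := H313.TK.exists_zero
    obtain ⟨c, hc, hev⟩ := H313.TK.signs ρ hz h0 h1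
    refine ⟨c, hc, ?_⟩
    filter_upwards [hev, eventually_ge_atTop 1] with x hx hx1
    have key : ∀ y : ℝ, 1 ≤ y → c * Real.sqrt y ≤ c * y ^ ρ.re := by
      intro y hy
      rw [Real.sqrt_eq_rpow]
      exact mul_le_mul_of_nonneg_left (Real.rpow_le_rpow_of_exponent_le hy h0) hc.le
    constructor
    · obtain ⟨y, hy, hy2⟩ := hx 1 (Or.inl rfl)
      refine ⟨y, hy, (key y (hx1.trans hy.1)).trans (hy2.trans (le_of_eq ?_))⟩
      rw [one_mul, M_eq]
    · obtain ⟨y, hy, hy2⟩ := hx (-1) (Or.inr rfl)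
      refine ⟨y, hy, ?_⟩
      have := (key y (hx1.trans hy.1)).trans hy2
      rw [← M_eq] at this
      linarith
  · intro s hs h
    have hall := half s hs h
    refine ⟨fun t ht => ?_, fun ρ hz h0 h1 => ?_⟩
    · have hz := (Z_zero_iff t).1 ht
      have hre : (1 / 2 + I * (t : ℂ)).re = 1 / 2 := by simp
      exact deriv_Z_ne hz (hall _ hz (le_of_eq hre.symm) (by rw [hre]; norm_num)).2
    · rcases le_total (1 / 2) ρ.re with hh | hh
      · exact (hall ρ hz hh h1).1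
      · have h2 := hall (1 - ρ) (H313.TK.refl_zero ρ hz h0 h1) (by simp; linarith) (by simp; linarith)
        have h3 := h2.1
        simp at h3
        linarith

end Pool.Agent.Results.MP_6bc78b_nt.SignedWindows
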